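import Pool.Agent.Helper99.WP.GoalsE

/-!
# WP, packet VGE
-/

set_option autoImplicit false

open Finset MeasureTheory ProbabilityTheory Filter

namespace Pool.Agent.Helper82.WP

open Pool.Agent.Helper99.ERW
open Pool.Agent.Helper99.WP

universe u

/-- a nearest neighbour path from `0` stays in the cube of radius `k` up to time `k` -/
theorem abs_le_of_steps {d : ℕ} {Y : ℕ → Site d} (h0 : Y 0 = 0)
    (hs : ∀ n, ∃ e : Dir d, Y (n + 1) = Y n + vec e) (k : ℕ) (l : Fin d) : |Y k l| ≤ k := by
  induction k with
  | zero => rw [h0]; simp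
  | succ k ih =>
    obtain ⟨e, he⟩ := hs k
    rw [he, Pi.add_apply]
    calc |Y k l + vec e l| ≤ |Y k l| + |vec e l| := abs_add_le _ _
      _ ≤ k + 1 := add_le_add ih (abs_vec_le e l)
      _ = ((k + 1 : ℕ) : ℤ) := by push_cast; ring

theorem exN_of_le {V : Type*} {m : ℕ} (π : Fin (m + 1) → V) {k : ℕ} (hk : k ≤ m) :
    exN π k = π ⟨k, by omega⟩ := by
  unfold exN
  congr 1
  exact Fin.ext (by simp [hk])

theorem VGE (hVCY : VCY_stmt.{u}) : VGE_stmt.{u} := by
  intro d Ω mΩ P hPp μ hμp env X hERW hP hst Λ N M x i hQ hMN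
  rw [hVCY d Ω mΩ P μ env X hERW hP hst Λ N x i]
  classical
  -- the good event
  have hgood : ∀ᵐ w ∂μ, X 0 w = 0 ∧ ∀ n, ∃ e : Dir d, X (n + 1) w = X n w + vec e := by
    have h1 : ∀ᵐ w ∂μ, ∀ n, ∃ e : Dir d, X (n + 1) w = X n w + vec e := by
      rw [ae_all_iff]
      exact fun n => hERW.ae_exists_step hP n
    filter_upwards [hERW.start, h1] with w a b
    exact ⟨a, b⟩
  let adm : (m : ℕ) → (Fin (m + 1) → Λ) → Prop := fun m π =>
    exN π 0 = x ∧ exN π m = x ∧ cnt (exN π) m = i ∧ ∀ k < m, cnt (exN π) k < N
  let U : Set Ω := ⋃ m ∈ Finset.range (N * Fintype.card Λ + 1),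
    ⋃ π ∈ (Finset.univ : Finset (Fin (m + 1) → Λ)),
      if adm m π then cyl X (fun k => ((exN π k : Λ) : Site d) - x) m else ∅
  have hsub : μ (⋃ m ∈ Finset.range (M + 1), AtV X i m) ≤ μ U := by
    apply measure_mono_ae
    filter_upwards [hgood] with w hw hmem
    obtain ⟨h0, hs⟩ := hw
    have hmem' : w ∈ (⋃ m ∈ Finset.range (M + 1), AtV X i m) := hmem
    simp only [Set.mem_iUnion] at hmem'
    obtain ⟨m, hm, hwm⟩ := hmem'
    have hmM : m ≤ M := by
      have := Finset.mem_range.mp hm
      omega
    have hX0 : X m w = 0 := hwm.1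
    have hpv : pastVisits (fun k => X k w) m = i := hwm.2
    have hin : ∀ k : Fin (m + 1), X k w + (x : Site d) ∈ Λ := by
      intro k
      apply hQ
      unfold Q
      rw [Finset.mem_Icc]
      have hb : ∀ l, |X k w l| ≤ (M : ℤ) := by
        intro l
        have h1 := abs_le_of_steps (Y := fun j => X j w) h0 hs (k : ℕ) l
        have h2 : ((k : ℕ) : ℤ) ≤ (M : ℤ) := by
          have := k.2
          exact_mod_cast (by omega : (k : ℕ) ≤ M)
        exact le_trans h1 h2
      constructor
      · intro l
        have := (abs_le.mp (hb l)).1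
        simp only [Pi.add_apply]
        linarith
      · intro l
        have := (abs_le.mp (hb l)).2
        simp only [Pi.add_apply]
        linarith
    let π : Fin (m + 1) → Λ := fun k => ⟨X k w + (x : Site d), hin k⟩
    have hπ : ∀ k, (hk : k ≤ m) → ((exN π k : Λ) : Site d) = X k w + x := by
      intro k hk
      rw [exN_of_le π hk]
    have hcnt : ∀ k, k ≤ m → cnt (exN π) k = pastVisits (fun k => X k w) k := by
      intro k hk
      unfold cnt pastVisits
      congr 1
      apply Finset.filter_congr
      intro r hr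
      have hr' : r ≤ m := by
        have := Finset.mem_range.mp hr
        omega
      constructor
      · intro h
        have h' : ((exN π r : Λ) : Site d) = ((exN π k : Λ) : Site d) := by rw [h]
        rw [hπ r hr', hπ k hk] at h'
        exact add_right_cancel h'
      · intro h
        apply Subtype.ext
        rw [hπ r hr', hπ k hk]
        exact congrArg (fun z => z + (x : Site d)) h
    have hadm : adm m π := by
      refine ⟨?_, ?_, ?_, ?_⟩
      · apply Subtype.ext
        rw [hπ 0 (Nat.zero_le _), h0, zero_add]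
      · apply Subtype.ext
        rw [hπ m le_rfl, hX0, zero_add]
      · rw [hcnt m le_rfl, hpv]
      · intro k hk
        have h1 : cnt (exN π) k ≤ k := by
          unfold cnt
          exact le_trans (Finset.card_filter_le _ _) (by simp)
        omega
    have hcard : 1 ≤ Fintype.card Λ := Fintype.card_pos_iff.mpr ⟨x⟩
    have hgoal : w ∈ U := by
      simp only [U, Set.mem_iUnion]
      refine ⟨m, ?_, π, Finset.mem_univ _, ?_⟩
      · rw [Finset.mem_range]
        have : N * 1 ≤ N * Fintype.card Λ := Nat.mul_le_mul_left _ hcard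
        omega
      · rw [if_pos hadm]
        intro k hk
        show X k w = ((exN π k : Λ) : Site d) - (x : Site d)
        rw [hπ k hk, add_sub_cancel_right]
    exact hgoal
  refine le_trans hsub ?_
  refine le_trans (measure_biUnion_finset_le _ _) ?_
  refine Finset.sum_le_sum fun m _ => ?_
  refine le_trans (measure_biUnion_finset_le _ _) ?_
  refine Finset.sum_le_sum fun π _ => ?_
  by_cases h : adm m π
  · rw [if_pos h, if_pos h]
  · rw [if_neg h, if_neg h]
    simp

end Pool.Agent.Helper82.WP
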